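import Mathlib
import Pool.Agent.K4W.StmtsA
import Pool.Agent.Helper37_HUA.Stp
import Pool.Agent.Helper94_HUA.Ppb
import Pool.Agent.Helper17_HUA.Ppc
import Pool.Agent.Helper85_HUA.Rtp

/-! # Squad K4W, module APP: quartic complete sums modulo prime powers -/

set_option autoImplicit false

namespace Pool.Agent.K4W.H51

open Pool.Agent.Helper69_Weyl (ee)
open Pool.Agent.VM (Sc)

/-- trivial bound -/
theorem app_triv (k u : ℕ) (b m : ℤ) : ‖Sc k u b m‖ ≤ (u : ℝ) := by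
  unfold Sc
  refine (norm_sum_le _ _).trans ?_
  have h : ∀ x ∈ Finset.range u,
      ‖ee (((b * (x : ℤ) ^ k + m * (x : ℤ) : ℤ) : ℝ) / (u : ℝ))‖ ≤ (1 : ℝ) := by
    intro x _
    exact (Pool.Agent.Helper69_Weyl.norm_ee _).le
  refine (Finset.sum_le_sum h).trans ?_
  simp

theorem app_gcd_one (p e : ℕ) (m : ℤ) (hp : 0 < p) :
    (1 : ℝ) ≤ (Int.gcd m ((p ^ e : ℕ) : ℤ) : ℝ) := by
  have h : 0 < Int.gcd m ((p ^ e : ℕ) : ℤ) := by
    apply Int.gcd_pos_of_ne_zero_right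
    have : 0 < p ^ e := pow_pos hp e
    exact_mod_cast this.ne'
  exact_mod_cast h

theorem app_gcd_p (p e : ℕ) (m : ℤ) (hp : 0 < p) (he : 1 ≤ e) (hm : (p : ℤ) ∣ m) :
    (p : ℝ) ≤ (Int.gcd m ((p ^ e : ℕ) : ℤ) : ℝ) := by
  have h : 0 < Int.gcd m ((p ^ e : ℕ) : ℤ) := by
    apply Int.gcd_pos_of_ne_zero_right
    have : 0 < p ^ e := pow_pos hp e
    exact_mod_cast this.ne'
  have h2 : (p : ℤ) ∣ ((p ^ e : ℕ) : ℤ) := by
    have : p ∣ p ^ e := dvd_pow_self p (by omega)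
    exact_mod_cast this
  have h3 : (p : ℤ) ∣ (Int.gcd m ((p ^ e : ℕ) : ℤ) : ℤ) := Int.dvd_coe_gcd hm h2
  have h4 : p ∣ Int.gcd m ((p ^ e : ℕ) : ℤ) := by exact_mod_cast h3
  exact_mod_cast Nat.le_of_dvd h h4

theorem app_gcd_cube (p e : ℕ) (m : ℤ) (hp : 0 < p) (he : 4 ≤ e) :
    (p : ℝ) ^ 3 * (Int.gcd m ((p ^ (e - 4) : ℕ) : ℤ) : ℝ) ≤
      (Int.gcd ((p : ℤ) ^ 3 * m) ((p ^ e : ℕ) : ℤ) : ℝ) := by
  have h : 0 < Int.gcd ((p : ℤ) ^ 3 * m) ((p ^ e : ℕ) : ℤ) := by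
    apply Int.gcd_pos_of_ne_zero_right
    have : 0 < p ^ e := pow_pos hp e
    exact_mod_cast this.ne'
  have ha : ((p : ℤ) ^ 3 * (Int.gcd m ((p ^ (e - 4) : ℕ) : ℤ) : ℤ)) ∣ (p : ℤ) ^ 3 * m :=
    mul_dvd_mul_left _ (Int.gcd_dvd_left _ _)
  have hb : ((p : ℤ) ^ 3 * (Int.gcd m ((p ^ (e - 4) : ℕ) : ℤ) : ℤ)) ∣ ((p ^ e : ℕ) : ℤ) := by
    have h1 : ((p ^ e : ℕ) : ℤ) = (p : ℤ) ^ 3 * (((p ^ (e - 4) : ℕ) : ℤ) * (p : ℤ)) := by
      push_cast
      rw [← pow_succ, ← pow_add]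
      congr 1
      omega
    rw [h1]
    exact mul_dvd_mul_left _ ((Int.gcd_dvd_right _ _).mul_right _)
  have h3 := Int.dvd_coe_gcd ha hb
  have h4 : p ^ 3 * Int.gcd m ((p ^ (e - 4) : ℕ) : ℤ) ∣
      Int.gcd ((p : ℤ) ^ 3 * m) ((p ^ e : ℕ) : ℤ) := by
    exact_mod_cast h3
  exact_mod_cast Nat.le_of_dvd h h4

theorem app_half (p e : ℕ) (hp : 0 < p) :
    (p : ℝ) ^ ((e + 1) / 2) ≤ √(p : ℝ) * √((p : ℝ) ^ e) := by
  have hp1 : (1 : ℝ) ≤ (p : ℝ) := by exact_mod_cast hp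
  rw [← Real.sqrt_mul (by positivity)]
  apply Real.le_sqrt_of_sq_le
  rw [← pow_mul, ← pow_succ']
  exact pow_le_pow_right₀ hp1 (by omega)

theorem app_half_even (p e : ℕ) (hp : 0 < p) (he : Even e) :
    (p : ℝ) ^ ((e + 1) / 2) ≤ √((p : ℝ) ^ e) := by
  have hp1 : (1 : ℝ) ≤ (p : ℝ) := by exact_mod_cast hp
  apply Real.le_sqrt_of_sq_le
  rw [← pow_mul]
  obtain ⟨r, hr⟩ := he
  exact pow_le_pow_right₀ hp1 (by omega)

/-- the reduction of case (e) -/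
theorem app_red (p e : ℕ) (b m : ℤ) (hp : 0 < p) (he : 4 ≤ e) (C : ℝ) (hC : 0 ≤ C)
    (h : Sc 4 (p ^ e) b ((p : ℤ) ^ 3 * m) = (p : ℂ) ^ 3 * Sc 4 (p ^ (e - 4)) b m)
    (ih : ‖Sc 4 (p ^ (e - 4)) b m‖ ≤
      C * √((p : ℝ) ^ (e - 4)) * (Int.gcd m ((p ^ (e - 4) : ℕ) : ℤ) : ℝ)) :
    ‖Sc 4 (p ^ e) b ((p : ℤ) ^ 3 * m)‖ ≤
      C * √((p : ℝ) ^ e) * (Int.gcd ((p : ℤ) ^ 3 * m) ((p ^ e : ℕ) : ℤ) : ℝ) := by
  have hp1 : (1 : ℝ) ≤ (p : ℝ) := by exact_mod_cast hp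
  rw [h, norm_mul, norm_pow, Complex.norm_natCast]
  have h1 := app_gcd_cube p e m hp he
  have h2 : √((p : ℝ) ^ (e - 4)) ≤ √((p : ℝ) ^ e) :=
    Real.sqrt_le_sqrt (pow_le_pow_right₀ hp1 (by omega))
  have h3 : (0 : ℝ) ≤ √((p : ℝ) ^ (e - 4)) := Real.sqrt_nonneg _
  calc (p : ℝ) ^ 3 * ‖Sc 4 (p ^ (e - 4)) b m‖
      ≤ (p : ℝ) ^ 3 * (C * √((p : ℝ) ^ (e - 4)) *
          (Int.gcd m ((p ^ (e - 4) : ℕ) : ℤ) : ℝ)) :=
        mul_le_mul_of_nonneg_left ih (by positivity)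
    _ = C * √((p : ℝ) ^ (e - 4)) *
          ((p : ℝ) ^ 3 * (Int.gcd m ((p ^ (e - 4) : ℕ) : ℤ) : ℝ)) := by ring
    _ ≤ C * √((p : ℝ) ^ (e - 4)) *
          (Int.gcd ((p : ℤ) ^ 3 * m) ((p ^ e : ℕ) : ℤ) : ℝ) :=
        mul_le_mul_of_nonneg_left h1 (by positivity)
    _ ≤ C * √((p : ℝ) ^ e) *
          (Int.gcd ((p : ℤ) ^ 3 * m) ((p ^ e : ℕ) : ℤ) : ℝ) := by
        apply mul_le_mul_of_nonneg_right _ (Nat.cast_nonneg _)
        exact mul_le_mul_of_nonneg_left h2 hC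

/-- from a bound by a constant times the square root -/
theorem app_fin (p e : ℕ) (b m : ℤ) (hp : 0 < p) (A : ℝ) (hA : A ≤ 1000)
    (h : ‖Sc 4 (p ^ e) b m‖ ≤ A * √((p : ℝ) ^ e)) :
    ‖Sc 4 (p ^ e) b m‖ ≤
      1000 * √((p : ℝ) ^ e) * (Int.gcd m ((p ^ e : ℕ) : ℤ) : ℝ) := by
  have h1 := app_gcd_one p e m hp
  have h3 : (0 : ℝ) ≤ √((p : ℝ) ^ e) := Real.sqrt_nonneg _
  calc ‖Sc 4 (p ^ e) b m‖ ≤ A * √((p : ℝ) ^ e) := h
    _ ≤ 1000 * √((p : ℝ) ^ e) := mul_le_mul_of_nonneg_right hA h3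
    _ = 1000 * √((p : ℝ) ^ e) * 1 := by ring
    _ ≤ 1000 * √((p : ℝ) ^ e) * (Int.gcd m ((p ^ e : ℕ) : ℤ) : ℝ) :=
        mul_le_mul_of_nonneg_left h1 (by positivity)

theorem app_sqrt_ge_one (p e : ℕ) (hp : 0 < p) : (1 : ℝ) ≤ √((p : ℝ) ^ e) := by
  have hp1 : (1 : ℝ) ≤ (p : ℝ) := by exact_mod_cast hp
  rw [Real.one_le_sqrt]
  exact one_le_pow₀ hp1

theorem app_two (b m : ℤ) (e : ℕ) (hb : ¬ ((2 : ℕ) : ℤ) ∣ b)
    (ppb : Pool.Agent.VM.PpbStmt 4) (ppc : Pool.Agent.VM.PpcStmt 4)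
    (ih : ∀ e' < e, ∀ m : ℤ, ‖Sc 4 (2 ^ e') b m‖ ≤
      1000 * √(((2 : ℕ) : ℝ) ^ e') * (Int.gcd m ((2 ^ e' : ℕ) : ℤ) : ℝ)) :
    ‖Sc 4 (2 ^ e) b m‖ ≤
      1000 * √(((2 : ℕ) : ℝ) ^ e) * (Int.gcd m ((2 ^ e : ℕ) : ℤ) : ℝ) := by
  have hp : Nat.Prime 2 := Nat.prime_two
  by_cases he : e ≤ 5
  · have h1 := app_triv 4 (2 ^ e) b m
    have h2 := app_sqrt_ge_one 2 e (by norm_num)
    refine app_fin 2 e b m (by norm_num) 32 (by norm_num) ?_
    have h3 : (((2 : ℕ) ^ e : ℕ) : ℝ) ≤ 32 := by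
      have : (2 : ℕ) ^ e ≤ 2 ^ 5 := Nat.pow_le_pow_right (by norm_num) he
      have h4 : (2 : ℕ) ^ e ≤ 32 := by omega
      exact_mod_cast h4
    nlinarith
  · push Not at he
    have hτ : (2 : ℕ) ^ 2 ∣ 4 := by norm_num
    have hτ1 : ¬ (2 : ℕ) ^ (2 + 1) ∣ 4 := by norm_num
    obtain ⟨c1, c2, c3, c4⟩ := ppc 2 e 2 b m hp hb hτ hτ1 (by omega)
    by_cases h4 : (((2 : ℕ) : ℤ) ^ 2) ∣ m
    · by_cases h8 : (((2 : ℕ) : ℤ) ^ (2 + 1)) ∣ m
      · obtain ⟨m', rfl⟩ := h8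
        have h := c2 m' rfl (by omega)
        exact app_red 2 e b m' (by norm_num) (by omega) 1000 (by norm_num) h
          (ih (e - 4) (by omega) m')
      · have h := ppb 2 e 2 b m hp hb hτ hτ1 (by omega) h4 h8
        refine app_fin 2 e b m (by norm_num) 512 (by norm_num) ?_
        have h5 := app_half 2 e (by norm_num)
        have h6 : √((2 : ℕ) : ℝ) ≤ 2 := by
          rw [Real.sqrt_le_left (by norm_num)]
          norm_num
        have h7 : (0 : ℝ) ≤ √(((2 : ℕ) : ℝ) ^ e) := Real.sqrt_nonneg _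
        have h8' : √((2 : ℕ) : ℝ) * √(((2 : ℕ) : ℝ) ^ e) ≤ 2 * √(((2 : ℕ) : ℝ) ^ e) :=
          mul_le_mul_of_nonneg_right h6 h7
        have h9 : ((4 : ℕ) : ℝ) ^ 4 = 256 := by norm_num
        rw [h9] at h
        refine h.trans ((mul_le_mul_of_nonneg_left (h5.trans h8') (by norm_num)).trans ?_)
        exact (show (256 : ℝ) * (2 * √(((2 : ℕ) : ℝ) ^ e)) = 512 * √(((2 : ℕ) : ℝ) ^ e) by
          ring).le
    · rw [c1 h4, norm_zero]
      positivity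

theorem app_odd (h1 : AweStmt) (h2 : ApoStmt) (p : ℕ) (b m : ℤ) (e : ℕ) (hp : p.Prime)
    (hp2 : p ≠ 2) (hb : ¬ (p : ℤ) ∣ b)
    (ppb : Pool.Agent.VM.PpbStmt 4) (ppc : Pool.Agent.VM.PpcStmt 4)
    (ih : ∀ e' < e, ∀ m : ℤ, ‖Sc 4 (p ^ e') b m‖ ≤
      1000 * √((p : ℝ) ^ e') * (Int.gcd m ((p ^ e' : ℕ) : ℤ) : ℝ)) :
    ‖Sc 4 (p ^ e) b m‖ ≤
      1000 * √((p : ℝ) ^ e) * (Int.gcd m ((p ^ e : ℕ) : ℤ) : ℝ) := by
  have hp0 : 0 < p := hp.pos
  have hpR : (1 : ℝ) ≤ (p : ℝ) := by exact_mod_cast hp0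
  have hsq := app_sqrt_ge_one p e hp0
  have hp35 : p = 3 ∨ 5 ≤ p := by
    have h2' := hp.two_le
    by_cases h : 5 ≤ p
    · exact Or.inr h
    · left
      have h4 : p ≠ 4 := by
        rintro rfl
        exact absurd hp (by norm_num)
      omega
  rcases Nat.lt_or_ge e 2 with he | he
  · interval_cases e
    · -- `e = 0`
      have h3 := app_triv 4 (p ^ 0) b m
      refine app_fin p 0 b m hp0 1 (by norm_num) ?_
      have h4 : (((p : ℕ) ^ 0 : ℕ) : ℝ) = 1 := by simp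
      rw [h4] at h3
      linarith
    · -- `e = 1`
      rcases hp35 with h3 | h5
      · have h3' := app_triv 4 (p ^ 1) b m
        refine app_fin p 1 b m hp0 3 (by norm_num) ?_
        have h4 : (((p : ℕ) ^ 1 : ℕ) : ℝ) = 3 := by rw [h3]; norm_num
        rw [h4] at h3'
        linarith
      · have h3' := h1 p b m hp h5 hb
        refine app_fin p 1 b m hp0 3 (by norm_num) ?_
        simpa using h3'
  · have hτ : p ^ 0 ∣ 4 := by simp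
    have hτ1 : ¬ p ^ (0 + 1) ∣ 4 := by
      intro h
      have h3 : p ∣ 2 ^ 2 := by simpa using h
      have h4 := hp.dvd_of_dvd_pow h3
      exact hp2 ((Nat.prime_dvd_prime_iff_eq hp Nat.prime_two).1 h4)
    obtain ⟨c1, c2, c3, c4⟩ := ppc p e 0 b m hp hb hτ hτ1 (by omega)
    have hpow1 : (p : ℤ) ^ (0 + 1) = (p : ℤ) := by simp
    by_cases hm : (p : ℤ) ∣ m
    · rcases Nat.lt_or_ge e 4 with he4 | he4
      · -- `e = 2, 3`
        have h3 := c4 (by rw [hpow1]; exact hm) he4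
        have h4 := app_gcd_p p e m hp0 (by omega) hm
        have h5 : (p : ℝ) ^ (e - 1) ≤ √((p : ℝ) ^ e) * (p : ℝ) := by
          have h6 : √((p : ℝ) ^ e) * (p : ℝ) = √((p : ℝ) ^ (e + 2)) := by
            rw [pow_add, Real.sqrt_mul (by positivity), Real.sqrt_sq (by positivity)]
          rw [h6]
          apply Real.le_sqrt_of_sq_le
          rw [← pow_mul]
          exact pow_le_pow_right₀ hpR (by omega)
        calc ‖Sc 4 (p ^ e) b m‖ ≤ √((p : ℝ) ^ e) * (p : ℝ) := h3.trans h5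
          _ ≤ √((p : ℝ) ^ e) * (Int.gcd m ((p ^ e : ℕ) : ℤ) : ℝ) :=
              mul_le_mul_of_nonneg_left h4 (by positivity)
          _ ≤ 1000 * √((p : ℝ) ^ e) * (Int.gcd m ((p ^ e : ℕ) : ℤ) : ℝ) := by
              have : (0 : ℝ) ≤ √((p : ℝ) ^ e) * (Int.gcd m ((p ^ e : ℕ) : ℤ) : ℝ) := by
                positivity
              nlinarith
      · by_cases hm3 : ((p : ℤ) ^ (4 - 1)) ∣ m
        · obtain ⟨m', rfl⟩ := hm3
          have h := c2 m' rfl (by omega)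
          exact app_red p e b m' hp0 (by omega) 1000 (by norm_num) h
            (ih (e - 4) (by omega) m')
        · rw [c3 (by rw [hpow1]; exact hm) hm3 he4, norm_zero]
          positivity
    · -- `p ∤ m`
      have hppb := ppb p e 0 b m hp hb hτ hτ1 (by omega) (by simp) (by rw [hpow1]; exact hm)
      have h9 : ((4 : ℕ) : ℝ) ^ 4 = 256 := by norm_num
      rw [h9] at hppb
      rcases Nat.even_or_odd e with hev | hod
      · have h5 := app_half_even p e hp0 hev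
        refine app_fin p e b m hp0 256 (by norm_num) ?_
        linarith
      · rcases hp35 with h3 | h5
        · refine app_fin p e b m hp0 512 (by norm_num) ?_
          have h5 := app_half p e hp0
          have h6 : √(p : ℝ) ≤ 2 := by
            rw [h3, Real.sqrt_le_left (by norm_num)]
            norm_num
          have h7 : (0 : ℝ) ≤ √((p : ℝ) ^ e) := Real.sqrt_nonneg _
          have h8' : √(p : ℝ) * √((p : ℝ) ^ e) ≤ 2 * √((p : ℝ) ^ e) :=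
            mul_le_mul_of_nonneg_right h6 h7
          linarith
        · obtain ⟨r, hr⟩ := hod
          have h6 := h2 p r b m hp h5 (by omega) hb hm
          rw [← hr] at h6
          refine app_fin p e b m hp0 27 (by norm_num) ?_
          have h7 : (0 : ℝ) ≤ √((p : ℝ) ^ e) := Real.sqrt_nonneg _
          apply le_of_sq_le_sq _ (by positivity)
          rw [mul_pow, Real.sq_sqrt (by positivity)]
          linarith

theorem app (h1 : AweStmt) (h2 : ApoStmt) : AppStmt := by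
  refine ⟨1000, by norm_num, ?_⟩
  have ppb : Pool.Agent.VM.PpbStmt 4 :=
    Pool.Agent.VM.H94.ppb 4 (by norm_num) Pool.Agent.VM.H37.stp Pool.Agent.VM.H85.rtp
  have ppc : Pool.Agent.VM.PpcStmt 4 :=
    Pool.Agent.VM.H17.ppc 4 (by norm_num) Pool.Agent.VM.H37.stp
  intro p e b m hp hb
  induction e using Nat.strong_induction_on generalizing m with
  | _ e ih =>
    by_cases hp2 : p = 2
    · subst hp2
      exact app_two b m e hb ppb ppc (fun e' he' m => ih e' he' m)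
    · exact app_odd h1 h2 p b m e hp hp2 hb ppb ppc (fun e' he' m => ih e' he' m)

end Pool.Agent.K4W.H51
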