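import Mathlib
import Pool.Agent.K4W.StmtsV

/-! # Squad K4W, module VDV: the pairs in the box -/

set_option autoImplicit false

namespace Pool.Agent.K4W.H51

theorem vdv_size (Z N : ℕ) (hZ8 : 8 ≤ Z) (hN : N ≤ 2 * Z ^ 64000) :
    2 * Z ^ 2 * N ^ 2 ≤ Z ^ 200000 := by
  have hZ1 : 1 ≤ Z := by omega
  have h1 : N ^ 2 ≤ (2 * Z ^ 64000) ^ 2 := Nat.pow_le_pow_left hN 2
  calc 2 * Z ^ 2 * N ^ 2 ≤ 2 * Z ^ 2 * (2 * Z ^ 64000) ^ 2 := Nat.mul_le_mul_left _ h1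
    _ = 8 * Z ^ 128002 := by ring
    _ ≤ Z * Z ^ 128002 := Nat.mul_le_mul_right _ hZ8
    _ = Z ^ 128003 := by rw [← pow_succ']
    _ ≤ Z ^ 200000 := Nat.pow_le_pow_right hZ1 (by norm_num)

theorem vdv (h : DvbStmt) : VdvStmt := by
  obtain ⟨Z₀, h⟩ := h
  refine ⟨max Z₀ 8, ?_⟩
  intro Z hZ N hN1 hN2 X hX Y hY
  have hZ0 : Z₀ ≤ Z := (le_max_left _ _).trans hZ
  have hZ8 : 8 ≤ Z := (le_max_right _ _).trans hZ
  have hZ1 : 1 ≤ Z := by omega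
  have hsz := vdv_size Z N hZ8 hN2
  obtain ⟨X', hX'⟩ : ∃ X' : ℕ, X' = min X (Z ^ 200000) := ⟨_, rfl⟩
  have hX'1 : X' ≤ Z ^ 300000 := by
    rw [hX']
    exact (min_le_right _ _).trans (Nat.pow_le_pow_right hZ1 (by norm_num))
  have hX'X : X' ≤ X := by
    rw [hX']
    exact min_le_left _ _
  have hbox : ∀ p ∈ Bx Z N, p.1 * p.2 ≠ 0 ∧ |p.1 * p.2| ≤ (X' : ℤ) := by
    intro p hp
    unfold Bx at hp
    rw [Finset.mem_filter, Finset.mem_product, Finset.mem_Icc, Finset.mem_Icc] at hp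
    obtain ⟨⟨_, hk⟩, h1, h2, h3⟩ := hp
    refine ⟨mul_ne_zero h1 h2, ?_⟩
    have hk' : |p.2| ≤ (Z : ℤ) * (N : ℤ) := by
      rw [abs_le]
      push_cast at hk
      exact hk
    have hZZ : (1 : ℤ) ≤ (Z : ℤ) := by exact_mod_cast hZ1
    have hLpos : (1 : ℤ) ≤ (Z : ℤ) ^ 1000 := one_le_pow₀ hZZ
    have key : |p.1 * p.2| * (Z : ℤ) ^ 1000 ≤ 2 * (Z : ℤ) ^ 2 * (N : ℤ) ^ 2 := by
      rw [abs_mul]
      calc |p.1| * |p.2| * (Z : ℤ) ^ 1000 = (|p.1| * (Z : ℤ) ^ 1000) * |p.2| := by ring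
        _ ≤ (2 * (Z : ℤ) * (N : ℤ)) * ((Z : ℤ) * (N : ℤ)) :=
          mul_le_mul h3 hk' (abs_nonneg _) (by positivity)
        _ = _ := by ring
    have hXZ : 2 * (Z : ℤ) ^ 2 * (N : ℤ) ^ 2 ≤ (X : ℤ) * (Z : ℤ) ^ 1000 := by
      exact_mod_cast hX
    have hsZ : 2 * (Z : ℤ) ^ 2 * (N : ℤ) ^ 2 ≤ (Z : ℤ) ^ 200000 := by
      exact_mod_cast hsz
    have a1 : |p.1 * p.2| ≤ (X : ℤ) :=
      le_of_mul_le_mul_right (key.trans hXZ) (by linarith)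
    have a2 : |p.1 * p.2| ≤ (Z : ℤ) ^ 200000 := by
      refine le_trans ?_ (key.trans hsZ)
      exact le_mul_of_one_le_right (abs_nonneg _) hLpos
    rw [hX', Nat.cast_min, Nat.cast_pow]
    exact le_min a1 a2
  have hmain := h Z hZ0 (Bx Z N) X' hX'1 hbox Y hY
  have hsub : Hs X' ⊆ Hs X := by
    intro H hH
    unfold Hs at hH ⊢
    rw [Finset.mem_filter, Finset.mem_Icc] at hH ⊢
    have : (X' : ℤ) ≤ (X : ℤ) := by exact_mod_cast hX'X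
    exact ⟨⟨by linarith [hH.1.1], by linarith [hH.1.2]⟩, hH.2⟩
  have hmono : ∑ H ∈ Hs X', Y H ≤ ∑ H ∈ Hs X, Y H :=
    Finset.sum_le_sum_of_subset_of_nonneg hsub (fun i _ _ => hY i)
  have hpos : 0 ≤ ∑ p ∈ Bx Z N, Y (p.1 * p.2) := Finset.sum_nonneg (fun p _ => hY _)
  have hZ0' : (0 : ℝ) ≤ (Z : ℝ) := Nat.cast_nonneg _
  calc ∑ p ∈ Bx Z N, Y (p.1 * p.2) ≤ 100 * ∑ p ∈ Bx Z N, Y (p.1 * p.2) := by linarith
    _ ≤ (Z : ℝ) * ∑ H ∈ Hs X', Y H := hmain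
    _ ≤ (Z : ℝ) * ∑ H ∈ Hs X, Y H := mul_le_mul_of_nonneg_left hmono hZ0'

end Pool.Agent.K4W.H51
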